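import Mathlib
import Pool.Agent.H89R3.Z2

/-!
# Commuting automorphisms of 2-power order of the Grassmann algebra: statements
-/

set_option autoImplicit false

open ExteriorAlgebra Pool.Agent.H89R3.Gr

noncomputable section

namespace Pool.Agent.Y325.GR

/-- an automorphism which is diagonal on the standard generators -/
def Dg {F : Type*} [Field F] (κ : E F ≃ₐ[F] E F) : Prop := ∀ i, ∃ c : F, κ (e i) = c • e i

/-- `φ` commutes with a set `K ∋ φ²` of diagonal automorphisms and with the parity, and has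
diagonal linear part `ε`, with `φ² = diag (ε²)`. -/
structure GoodK {F : Type*} [Field F] (K : Set (E F ≃ₐ[F] E F)) (ε : ℕ → F)
    (φ : E F ≃ₐ[F] E F) : Prop where
  diag : ∀ κ ∈ K, Dg κ
  commK : ∀ κ ∈ K, φ * κ = κ * φ
  sqK : φ * φ ∈ K
  sq : ∀ i, (φ * φ) (e i) = (ε i * ε i) • (e i : E F)
  comm : φ * tau = tau * φ
  lin : ∀ i, φ (e i) - ε i • e i ∈ (Fil 2 : Submodule F (E F))


/-- the main lemma -/
def MainStmt (F : Type*) [Field F] (h2 : (2:F) ≠ 0) : Prop :=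
  ∀ (K : Set (E F ≃ₐ[F] E F)) (ε : ℕ → F) (φ : E F ≃ₐ[F] E F), GoodK K ε φ → ∀ N : ℕ,
    ∃ γ : E F ≃ₐ[F] E F, γ * tau = tau * γ ∧ (∀ κ ∈ K, γ * κ = κ * γ) ∧
      (∀ x, γ x - x ∈ (Fil 2 : Submodule F (E F))) ∧
      (∀ x ∈ Sub h2 N, γ⁻¹ (φ (γ x)) ∈ Sub h2 N) ∧
      (∀ x ∈ Sub h2 N, φ x ∈ Sub h2 N → γ x = x)

/-- linearisation commuting with `K` -/
def LinStmt (F : Type*) [Field F] : Prop :=
  ∀ (K : Set (E F ≃ₐ[F] E F)) (ε : ℕ → F) (φ : E F ≃ₐ[F] E F), GoodK K ε φ →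
    ∃ Ψ : E F ≃ₐ[F] E F, (∀ κ ∈ K, Ψ * κ = κ * Ψ) ∧ ∀ i, φ (Ψ (e i)) = ε i • Ψ (e i)

/-- one more automorphism can be diagonalised simultaneously -/
def StepStmt (F : Type*) [Field F] : Prop :=
  ∀ (K : Set (E F ≃ₐ[F] E F)) (φ : E F ≃ₐ[F] E F), (∀ κ ∈ K, Dg κ) →
    (∀ κ ∈ K, φ * κ = κ * φ) → φ * φ ∈ K →
    (∀ i, ∃ s : F, (φ * φ) (e i) = (s * s) • (e i : E F)) →
    ∃ Ψ : E F ≃ₐ[F] E F, (∀ κ ∈ K, Dg (Ψ⁻¹ * κ * Ψ)) ∧ Dg (Ψ⁻¹ * φ * Ψ)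

/-- every action of a finite abelian 2-group is diagonalisable -/
def ActStmt.{u, v} (F : Type u) [Field F] : Prop :=
  ∀ (r : ℕ) (ζ : F), IsPrimitiveRoot ζ (2 ^ r) → ∀ (H : Type v) [CommGroup H] [Finite H],
    (∀ h : H, h ^ (2 ^ r) = 1) → ∀ ρ : H →* (E F ≃ₐ[F] E F),
    ∃ Ψ : E F ≃ₐ[F] E F, ∀ h, Dg (Ψ⁻¹ * ρ h * Ψ)

end Pool.Agent.Y325.GR
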