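import Mathlib
import Pool.Agent.Y325.GR.Stm

/-!
# Roots of unipotent automorphisms and conjugacy, for automorphisms with equal squares
-/

set_option autoImplicit false

open ExteriorAlgebra Pool.Agent.H89R3.Gr

noncomputable section

namespace Pool.Agent.Y325.GR

variable {F : Type*} [Field F] (h2 : (2:F) ≠ 0) {A : Type*} [Ring A] [Algebra F A]

include h2 in
/-- an automorphism inverting `h` by conjugation inverts the inverse square root of `h` -/
lemma inv_root' {α h r : A ≃ₐ[F] A} (hαh : α * h * α⁻¹ = h⁻¹)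
    (hr : r * r * h = 1) (hun : Un r)
    (hc : ∀ c : A ≃ₐ[F] A, c * h = h * c → c * r = r * c) : α * r * α⁻¹ = r⁻¹ := by
  have hrh : r * h = h * r := (hc h rfl).symm
  have h1 : (α * r * α⁻¹) * h⁻¹ = h⁻¹ * (α * r * α⁻¹) := by
    rw [← hαh]
    have : ∀ x y : A ≃ₐ[F] A, (α * x * α⁻¹) * (α * y * α⁻¹) = α * (x * y) * α⁻¹ := by
      intro x y; group
    rw [this, this, hrh]
  have h1' : (α * r * α⁻¹) * h = h * (α * r * α⁻¹) := by
    have h1'' : Commute (α * r * α⁻¹) h⁻¹ := h1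
    exact (Commute.inv_right_iff.mp h1'')
  have h3 : (α * r * α⁻¹) * r = r * (α * r * α⁻¹) := hc _ h1'
  have hrr : r * r = h⁻¹ := eq_inv_of_mul_eq_one_left hr
  have h4 : (α * r * α⁻¹ * r) * (α * r * α⁻¹ * r) = 1 := by
    calc (α * r * α⁻¹ * r) * (α * r * α⁻¹ * r) = (α * r * α⁻¹) * (r * (α * r * α⁻¹)) * r := by group
      _ = (α * r * α⁻¹) * ((α * r * α⁻¹) * r) * r := by rw [h3]
      _ = α * (r * r) * α⁻¹ * (r * r) := by group
      _ = α * h⁻¹ * α⁻¹ * h⁻¹ := by rw [hrr]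
      _ = (α * h * α⁻¹)⁻¹ * h⁻¹ := by group
      _ = 1 := by rw [hαh]; group
  have h5 : Un (α * r * α⁻¹ * r) := by
    apply Un_mul _ hun h3
    exact Un_conj hun α
  have h6 := eq_one_of_sq h2 h5 h4
  exact eq_inv_of_mul_eq_one_left h6

include h2 in
/-- two automorphisms with the same square whose quotient is unipotent are conjugate -/
lemma conj_root' {α β r : A ≃ₐ[F] A} (hαβ : α * α = β * β)
    (hr : r * r * (β * α⁻¹) = 1) (hun : Un r)
    (hc : ∀ c : A ≃ₐ[F] A, c * (β * α⁻¹) = (β * α⁻¹) * c → c * r = r * c) : α * r = r * β := by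
  have h1 : α * (β * α⁻¹) * α⁻¹ = (β * α⁻¹)⁻¹ := by
    calc α * (β * α⁻¹) * α⁻¹ = α * β * (α * α)⁻¹ := by group
      _ = α * β * (β * β)⁻¹ := by rw [hαβ]
      _ = (β * α⁻¹)⁻¹ := by group
  have h3 := inv_root' h2 h1 hr hun hc
  have h4 : α * r = r⁻¹ * α := by
    rw [← h3]; group
  rw [h4]
  have h6 : r * (β * α⁻¹) = r⁻¹ := by
    have : r * (r * (β * α⁻¹)) = 1 := by rw [← mul_assoc]; exact hr
    exact eq_inv_of_mul_eq_one_right this
  rw [← h6]; group

end Pool.Agent.Y325.GR
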