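import Mathlib
import Pool.Agent.Y325.GR.Root

/-!
# The main lemma: moving an automorphism so that it preserves a finite free factor,
commuting with a set of diagonal automorphisms
-/

set_option autoImplicit false

open ExteriorAlgebra Pool.Agent.H89R3.Gr

noncomputable section

namespace Pool.Agent.Y325.GR

variable {F : Type*} [Field F] (h2 : (2:F) ≠ 0)

lemma apply_congr {f g : E F ≃ₐ[F] E F} (h : f = g) (x : E F) : f x = g x := by rw [h]

lemma e_ne (i : ℕ) : (e i : E F) ≠ 0 := by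
  intro h
  have h1 : (Finsupp.single i 1 : ℕ →₀ F) = 0 := (ι_eq_zero_iff (R := F) (Finsupp.single i 1)).mp h
  simp at h1

/-- a diagonal automorphism commutes with the projections -/
lemma Dg_pr {κ : E F ≃ₐ[F] E F} (hκ : Dg κ) (N : ℕ) (x : E F) : pr h2 N (κ x) = κ (pr h2 N x) := by
  have : (pr h2 N).comp (κ : E F →ₐ[F] E F) = (κ : E F →ₐ[F] E F).comp (pr h2 N) := by
    apply hom_ext'
    intro i
    obtain ⟨c, hc⟩ := hκ i
    change pr h2 N (κ (e i)) = κ (pr h2 N (e i))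
    rcases lt_or_ge i N with h | h
    · rw [hc, map_smul, pr_e_lt h2 h, hc]
    · rw [hc, map_smul, pr_e_ge h2 h, smul_zero, map_zero]
  exact congrArg (fun l : E F →ₐ[F] E F => l x) this

lemma Dg_Sub {κ : E F ≃ₐ[F] E F} (hκ : Dg κ) (N : ℕ) {x : E F} (hx : x ∈ Sub h2 N) :
    κ x ∈ Sub h2 N := by
  rw [mem_Sub, Dg_pr h2 hκ, (mem_Sub h2).mp hx]

lemma Dg_inv {κ : E F ≃ₐ[F] E F} (hκ : Dg κ) : Dg κ⁻¹ := by
  intro i
  obtain ⟨c, hc⟩ := hκ i
  have hc0 : c ≠ 0 := by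
    rintro rfl
    rw [zero_smul] at hc
    exact e_ne i ((map_eq_zero_iff κ κ.injective).mp hc)
  refine ⟨c⁻¹, ?_⟩
  have h1 : κ⁻¹ (κ (e i)) = κ⁻¹ (c • e i) := by rw [hc]
  rw [inv_apply', map_smul] at h1
  rw [eq_inv_smul_iff₀ hc0]
  exact h1.symm

lemma Dg_tau {κ : E F ≃ₐ[F] E F} (hκ : Dg κ) : κ * tau = tau * κ := by
  have : (κ : E F →ₐ[F] E F).comp ((tau : E F ≃ₐ[F] E F) : E F →ₐ[F] E F) =
      ((tau : E F ≃ₐ[F] E F) : E F →ₐ[F] E F).comp (κ : E F →ₐ[F] E F) := by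
    apply hom_ext'
    intro i
    obtain ⟨c, hc⟩ := hκ i
    simp [hc]
  ext x
  exact congrArg (fun l : E F →ₐ[F] E F => l x) this


lemma grp1' {G : Type*} [Group G] {a b d : G} (h1 : b * b * (a * a * d⁻¹) = 1)
    (h : a * b = b * a) : (a * b) * (a * b) = d := by
  have h3 : b * b * (a * a) = d := by
    have : b * b * (a * a) * d⁻¹ = 1 := by rw [← h1]; group
    exact mul_inv_eq_one.mp this
  calc (a * b) * (a * b) = (b * a) * (b * a) := by rw [h]
    _ = b * (a * b) * a := by group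
    _ = b * (b * a) * a := by rw [h]
    _ = b * b * (a * a) := by group
    _ = d := h3

theorem t_MAIN : MainStmt F h2 := by
  intro K ε φ hφ N
  classical
  set δ : E F ≃ₐ[F] E F := φ * φ with hδ
  have hδD : Dg δ := hφ.diag _ hφ.sqK
  have hδD' : Dg δ⁻¹ := Dg_inv hδD
  have hφφ : ∀ x, φ (φ x) = δ x := fun x => rfl
  have hδφ : ∀ x, δ (φ x) = φ (δ x) := fun x => rfl
  have cφτ : Commute φ tau := hφ.comm
  have cφδ : Commute φ δ := (Commute.refl φ).mul_right (Commute.refl φ)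
  have cφδ' : Commute φ δ⁻¹ := cφδ.inv_right
  have cφK : ∀ κ ∈ K, Commute κ φ := fun κ hκ => (hφ.commK κ hκ).symm
  have cδK : ∀ κ ∈ K, Commute κ δ⁻¹ := fun κ hκ => ((cφK κ hκ).mul_right (cφK κ hκ)).inv_right
  have cτδ : Commute tau δ⁻¹ := (Dg_tau hδD').symm
  have hφodd : ∀ i, tau (φ (e i)) = - φ (e i) := tau_odd_of_comm hφ.comm
  -- the approximation
  set f : ℕ → E F := fun i => if i < N then pr h2 N (φ (e i)) else φ (e i) with hf
  have hfodd : ∀ i, tau (f i) = - f i := by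
    intro i
    simp only [hf]
    split_ifs with h
    · rw [pr_tau, hφodd, map_neg]
    · exact hφodd i
  set φ1 : E F →ₐ[F] E F := L h2 f hfodd with hφ1
  have hφ1e : ∀ i, φ1 (e i) = f i := fun i => by rw [hφ1, L_e]
  have hφ1pr : ∀ x ∈ Sub h2 N, φ1 x = pr h2 N (φ x) := by
    intro x hx
    have : φ1.comp (pr h2 N) = ((pr h2 N).comp (φ : E F →ₐ[F] E F)).comp (pr h2 N) := by
      apply hom_ext'
      intro i
      simp only [AlgHom.comp_apply]
      rcases lt_or_ge i N with h | h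
      · rw [pr_e_lt h2 h, hφ1e, hf]; simp [h]
      · rw [pr_e_ge h2 h]; simp
    have h3 := congrArg (fun l : E F →ₐ[F] E F => l x) this
    simp only [AlgHom.comp_apply] at h3
    rwa [(mem_Sub h2).mp hx] at h3
  have hφ1K : ∀ κ : E F ≃ₐ[F] E F, Dg κ → Commute φ κ → ∀ x, φ1 (κ x) = κ (φ1 x) := by
    intro κ hκ hc x
    have : φ1.comp (κ : E F →ₐ[F] E F) = (κ : E F →ₐ[F] E F).comp φ1 := by
      apply hom_ext'
      intro i
      obtain ⟨c, hce⟩ := hκ i
      change φ1 (κ (e i)) = κ (φ1 (e i))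
      have h3 : κ (φ (e i)) = c • φ (e i) := by
        have := apply_congr hc.eq (e i)
        rw [mul_apply', mul_apply', hce, map_smul] at this
        exact this.symm
      rw [hce, map_smul, hφ1e, hf]
      simp only
      split_ifs with h
      · rw [← Dg_pr h2 hκ, h3, map_smul]
      · rw [h3]
    exact congrArg (fun l : E F →ₐ[F] E F => l x) this
  -- the ideal
  set Y0 : Submodule F (E F) := Submodule.span F ((fun i => φ (e i) - pr h2 N (φ (e i))) '' Set.Iio N) with hY0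
  set Y : Submodule F (E F) := Y0 ⊔ Y0.map φ.toLinearMap with hYdef
  have hY0fg : Y0.FG := Submodule.fg_span ((Set.finite_Iio N).image _)
  have hYfg : Y.FG := hY0fg.sup (hY0fg.map _)
  have hY0δ : ∀ y ∈ Y0, δ y ∈ Y0 := by
    intro y hy
    induction hy using Submodule.span_induction with
    | mem x hx =>
      obtain ⟨i, hi, rfl⟩ := hx
      obtain ⟨c, hc⟩ := hδD i
      have h1 : δ (φ (e i) - pr h2 N (φ (e i))) = c • (φ (e i) - pr h2 N (φ (e i))) := by
        rw [map_sub, ← Dg_pr h2 hδD, hδφ, hc, map_smul, map_smul, smul_sub]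
      simp only
      rw [h1]
      exact Y0.smul_mem _ (Submodule.subset_span ⟨i, hi, rfl⟩)
    | zero => simp
    | add a b _ _ ha hb => rw [map_add]; exact Y0.add_mem ha hb
    | smul c a _ ha => rw [map_smul]; exact Y0.smul_mem _ ha
  have hY0odd : ∀ y ∈ Y0, tau y = -y := by
    intro y hy
    induction hy using Submodule.span_induction with
    | mem x hx =>
      obtain ⟨i, _, rfl⟩ := hx
      simp only [map_sub, pr_tau, hφodd, map_neg]; abel
    | zero => simp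
    | add a b _ _ ha hb => rw [map_add, ha, hb]; abel
    | smul c a _ ha => rw [map_smul, ha, smul_neg]
  have hYodd : ∀ y ∈ Y, tau y = -y := by
    intro y hy
    obtain ⟨a, ha, b, hb, rfl⟩ := Submodule.mem_sup.mp hy
    obtain ⟨c, hc, rfl⟩ := hb
    have h1 : tau (φ c) = - φ c := by rw [comm_apply hφ.comm, hY0odd c hc, map_neg]
    rw [map_add, hY0odd a ha]
    change -a + tau (φ c) = -(a + φ c)
    rw [h1]; abel
  have hYφ : ∀ y ∈ Y, φ y ∈ Y := by
    intro y hy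
    obtain ⟨a, ha, b, hb, rfl⟩ := Submodule.mem_sup.mp hy
    obtain ⟨c, hc, rfl⟩ := hb
    rw [map_add, add_comm]
    apply Submodule.add_mem_sup
    · change φ (φ c) ∈ Y0
      rw [hφφ]; exact hY0δ c hc
    · exact ⟨a, ha, rfl⟩
  set I : Submodule F (E F) := ⊤ * Y with hI
  have hI1 : ⊤ * I ≤ I := by rw [hI, ← mul_assoc, top_mul_top]
  have hI3 : I * ⊤ ≤ I := by
    calc I * ⊤ = ⊤ * (Y * ⊤) := by rw [hI, mul_assoc]
      _ ≤ ⊤ * (⊤ * Y) := mul_le_mul' le_rfl (Y_mul_top h2 hYodd)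
      _ = I := by rw [← mul_assoc, top_mul_top]
  have hYI : Y ≤ I := fun y hy => by
    have := Submodule.mul_mem_mul (Submodule.mem_top (x := (1 : E F)) (R := F)) hy
    simpa [hI] using this
  have hIφ : ∀ x ∈ I, φ x ∈ I := by
    intro x hx
    rw [hI] at hx
    induction hx using Submodule.mul_induction_on' with
    | mem_mul_mem a _ b hb => rw [map_mul]; exact Submodule.mul_mem_mul trivial (hYφ b hb)
    | add a _ b _ ha hb => rw [map_add]; exact I.add_mem ha hb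
  -- `φ1` versus `φ`
  have hA : ∀ x, φ1 x - φ x ∈ I := by
    intro x
    apply diff_ideal (f := φ1) (g := (φ : E F →ₐ[F] E F)) hI1 hI3
    intro i
    change φ1 (e i) - φ (e i) ∈ I
    rw [hφ1e, hf]
    simp only
    split_ifs with h
    · apply hYI
      apply Submodule.mem_sup_left
      have h1 : φ (e i) - pr h2 N (φ (e i)) ∈ Y0 := Submodule.subset_span ⟨i, h, rfl⟩
      have := Y0.neg_mem h1
      simpa using this
    · simp
  have hB : ∀ x ∈ I, φ1 x ∈ I := by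
    intro x hx
    have := I.add_mem (hA x) (hIφ x hx)
    simpa using this
  have hprFil : ∀ (k : ℕ) (x : E F), x ∈ (Fil k : Submodule F (E F)) → pr h2 N x ∈ (Fil k : Submodule F (E F)) := by
    intro k x hx
    apply hom_Fil h2 _ k hx
    intro i
    rcases lt_or_ge i N with h | h
    · rw [pr_e_lt h2 h]; exact e_mem_Fil i
    · rw [pr_e_ge h2 h]; exact Submodule.zero_mem _
  have hφ1odd : ∀ i, tau (φ1 (e i)) = - φ1 (e i) := fun i => by rw [hφ1e]; exact hfodd i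
  have hφ1Fil : ∀ (k : ℕ) (x : E F), x ∈ (Fil k : Submodule F (E F)) → φ1 x ∈ (Fil k : Submodule F (E F)) := by
    intro k x hx
    exact hom_Fil h2 (fun i => odd_mem_Fil h2 (hφ1odd i)) k hx
  have hφ1lin : ∀ i, φ1 (e i) - ε i • e i ∈ (Fil 2 : Submodule F (E F)) := by
    intro i
    rw [hφ1e, hf]
    simp only
    split_ifs with h
    · have := hprFil 2 _ (hφ.lin i)
      rwa [map_sub, map_smul, pr_e_lt h2 h] at this
    · exact hφ.lin i
  have hA2 : ∀ x, φ1 x - φ x ∈ (Fil 2 : Submodule F (E F)) := by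
    intro x
    apply diff_Fil h2 (f := φ1) (g := (φ : E F →ₐ[F] E F))
    intro i
    have := Submodule.sub_mem _ (hφ1lin i) (hφ.lin i)
    simpa using this
  -- `s = φ1 ∘ φ1 ∘ δ⁻¹`
  set s0 : E F →ₐ[F] E F := (φ1.comp φ1).comp ((δ⁻¹ : E F ≃ₐ[F] E F) : E F →ₐ[F] E F) with hs0
  have hs0a : ∀ x, s0 x = φ1 (φ1 (δ⁻¹ x)) := fun x => rfl
  have hs0x : ∀ x, s0 x - x = (φ1 (φ1 (δ⁻¹ x)) - φ (φ1 (δ⁻¹ x))) + φ (φ1 (δ⁻¹ x) - φ (δ⁻¹ x)) := by
    intro x
    rw [map_sub, hφφ, apply_inv', hs0a]; abel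
  have hs0I : ∀ x, s0 x - x ∈ I := by
    intro x
    rw [hs0x]
    exact I.add_mem (hA _) (hIφ _ (hA _))
  have hs0F : ∀ x, s0 x - x ∈ (Fil 2 : Submodule F (E F)) := by
    intro x
    rw [hs0x]
    exact Submodule.add_mem _ (hA2 _) (comm_Fil h2 hφ.comm 2 (hA2 _))
  have hs0LN : LN (s0.toLinearMap - 1) := LF h2 hYfg hYodd hs0I (fun i => hs0F _)
  have hs0bij : Function.Bijective s0 := by
    have h1 := bij_of_LN h2 hs0LN
    have h3 : (1 + (s0.toLinearMap - 1) : Module.End F (E F)) = s0.toLinearMap := by abel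
    rw [h3] at h1
    exact h1
  have hφ1bij : Function.Bijective φ1 := by
    have h1 : Function.Bijective (fun x => s0 (δ x)) := hs0bij.comp δ.bijective
    have h3 : (fun x => s0 (δ x)) = φ1 ∘ φ1 := by
      funext x
      rw [hs0a, inv_apply']; rfl
    rw [h3] at h1
    exact ⟨h1.1.of_comp, h1.2.of_comp⟩
  set Φ : E F ≃ₐ[F] E F := AlgEquiv.ofBijective φ1 hφ1bij with hΦ
  have hΦa : ∀ x, Φ x = φ1 x := fun x => rfl
  have hΦτ : Φ * tau = tau * Φ := by
    ext x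
    exact (comm_tau hφ1odd x).symm
  have cΦτ : Commute tau Φ := hΦτ.symm
  have cΦK : ∀ κ : E F ≃ₐ[F] E F, Dg κ → Commute φ κ → Commute κ Φ := by
    intro κ hκ hc
    have : κ * Φ = Φ * κ := by
      ext x
      exact (hφ1K κ hκ hc x).symm
    exact this
  have cΦδ : Commute Φ δ⁻¹ := (cΦK δ⁻¹ hδD' cφδ').symm
  have hs : Un (Φ * Φ * δ⁻¹) := hs0LN
  obtain ⟨ρ, hρ, hρun, hρc, hρS⟩ := exists_root h2 hs
  have hρΦ : Φ * ρ = ρ * Φ := hρc Φ (((Commute.refl Φ).mul_right (Commute.refl Φ)).mul_right cΦδ)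
  have hρτ : tau * ρ = ρ * tau := hρc tau ((cΦτ.mul_right cΦτ).mul_right cτδ)
  have hρK : ∀ κ ∈ K, Commute κ ρ := fun κ hκ =>
    hρc κ (((cΦK κ (hφ.diag κ hκ) (cφK κ hκ).symm).mul_right
      (cΦK κ (hφ.diag κ hκ) (cφK κ hκ).symm)).mul_right (cδK κ hκ))
  have hρI : ∀ x, ρ x - x ∈ I := root_all hρS (fun x => hs0I x)
  have hρF : ∀ x, ρ x - x ∈ (Fil 2 : Submodule F (E F)) := root_all hρS (fun x => hs0F x)
  -- the new automorphism
  set ψ : E F ≃ₐ[F] E F := Φ * ρ with hψ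
  have hψψ : ψ * ψ = δ := grp1' hρ hρΦ
  have hψφI : ∀ x, ψ x - φ x ∈ I := by
    intro x
    have h1 : ψ x - φ x = φ1 (ρ x - x) + (φ1 x - φ x) := by
      rw [hψ, mul_apply', hΦa, map_sub]; abel
    rw [h1]
    exact I.add_mem (hB _ (hρI x)) (hA x)
  have hψφF : ∀ x, ψ x - φ x ∈ (Fil 2 : Submodule F (E F)) := by
    intro x
    have h1 : ψ x - φ x = φ1 (ρ x - x) + (φ1 x - φ x) := by
      rw [hψ, mul_apply', hΦa, map_sub]; abel
    rw [h1]
    exact Submodule.add_mem _ (hφ1Fil 2 _ (hρF x)) (hA2 x)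
  have hψτ : ψ * tau = tau * ψ := by
    rw [hψ, mul_assoc, ← hρτ, ← mul_assoc, hΦτ, mul_assoc]
  have cψτ : Commute tau ψ := hψτ.symm
  have cψK : ∀ κ ∈ K, Commute κ ψ := fun κ hκ =>
    (cΦK κ (hφ.diag κ hκ) (cφK κ hκ).symm).mul_right (hρK κ hκ)
  have hψN : ∀ x ∈ Sub h2 N, ψ x ∈ Sub h2 N := by
    intro x hx
    have h1 : ρ x ∈ Sub h2 N := by
      apply root_stable hρS _ x hx
      intro y hy
      change φ1 (φ1 (δ⁻¹ y)) ∈ _
      have h3 : φ1 (δ⁻¹ y) ∈ Sub h2 N := by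
        rw [hφ1pr _ (Dg_Sub h2 hδD' N hy)]; exact pr_mem_Sub h2 N _
      rw [hφ1pr _ h3]; exact pr_mem_Sub h2 N _
    rw [hψ, mul_apply', hΦa, hφ1pr _ h1]
    exact pr_mem_Sub h2 N _
  have hψX : ∀ x ∈ Sub h2 N, φ x ∈ Sub h2 N → ψ x = φ x := by
    intro x hx hφx
    have h0 : δ⁻¹ x ∈ Sub h2 N := Dg_Sub h2 hδD' N hx
    have h0' : φ (δ⁻¹ x) ∈ Sub h2 N := by
      have := apply_congr cφδ'.eq x
      rw [mul_apply', mul_apply'] at this
      rw [this]; exact Dg_Sub h2 hδD' N hφx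
    have h1 : φ1 x = φ x := by rw [hφ1pr x hx, (mem_Sub h2).mp hφx]
    have h1' : φ1 (δ⁻¹ x) = φ (δ⁻¹ x) := by rw [hφ1pr _ h0, (mem_Sub h2).mp h0']
    have h3 : φ1 (φ (δ⁻¹ x)) = x := by rw [hφ1pr _ h0', hφφ, apply_inv', (mem_Sub h2).mp hx]
    have h4 : (Φ * Φ * δ⁻¹) x = x := by
      rw [mul_apply', mul_apply', hΦa, hΦa, h1', h3]
    have h5 : ρ x = x := root_fix hρS h4
    rw [hψ, mul_apply', hΦa, h5, h1]
  -- the quotient
  set v : E F ≃ₐ[F] E F := ψ * φ⁻¹ with hv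
  have hvI : ∀ x, v x - x ∈ I := by
    intro x
    have := hψφI (φ⁻¹ x)
    rwa [apply_inv'] at this
  have hvF : ∀ x, v x - x ∈ (Fil 2 : Submodule F (E F)) := by
    intro x
    have := hψφF (φ⁻¹ x)
    rwa [apply_inv'] at this
  have hvun : Un v := LF h2 hYfg hYodd (h := (v : E F →ₐ[F] E F)) hvI (fun i => hvF _)
  obtain ⟨γ, hγ, hγun, hγc, hγS⟩ := exists_root h2 hvun
  have hconj : φ * γ = γ * ψ := conj_root' h2 (hψψ.symm) hγ hγun hγc
  refine ⟨γ, ?_, ?_, root_all hγS hvF, ?_, ?_⟩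
  · exact (hγc tau (cψτ.mul_right cφτ.symm.inv_right)).symm
  · intro κ hκ
    exact (hγc κ ((cψK κ hκ).mul_right (cφK κ hκ).inv_right)).symm
  · intro x hx
    have h1 : γ⁻¹ (φ (γ x)) = (γ⁻¹ * (φ * γ)) x := rfl
    rw [h1, hconj, ← mul_assoc, inv_mul_cancel, one_mul]
    exact hψN x hx
  · intro x hx hφx
    apply root_fix hγS
    have h1 : φ⁻¹ x = δ⁻¹ (φ x) := by
      have : φ⁻¹ = δ⁻¹ * φ := by rw [hδ]; group
      rw [this]; rfl
    have h3 : φ⁻¹ x ∈ Sub h2 N := by rw [h1]; exact Dg_Sub h2 hδD' N hφx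
    rw [hv, mul_apply', hψX (φ⁻¹ x) h3 (by rw [apply_inv']; exact hx), apply_inv']

end Pool.Agent.Y325.GR
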